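import Pool.Agent.Helper15.GS.GoalsD

/-! Averages of `B` (packet GTR). -/

open Complex Metric Set Filter Topology MeasureTheory
open scoped ContDiff ComplexConjugate ComplexOrder Manifold Matrix

namespace Pool.Agent.Helper58.GS

open Pool.Agent.Helper95.Lin Pool.Agent.Helper16.Abund Pool.Agent.Helper92.Orb
  Pool.Agent.Helper10.SP Pool.Agent.Helper95.RK Pool.Agent.Helper57.HS
  Pool.Agent.Helper15.HS Pool.Agent.Helper15.GS

universe u

namespace Gtr

variable {n : ℕ}

lemma kint {T : Set (Cn n)} {κ g : Cn n → ℝ} (hκ : TestF T κ) (hg : ContinuousOn g T) :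
    IntegrableOn (fun x => κ x * g x) T := by
  obtain ⟨h1, h2, h3⟩ := hκ
  have h4 : IntegrableOn (fun x => κ x * g x) (tsupport κ) :=
    (h1.continuous.continuousOn.mul (hg.mono h3)).integrableOn_compact h2
  have h5 : Function.support (fun x => κ x * g x) ⊆ tsupport κ := by
    intro x hx
    apply subset_tsupport
    intro h0
    apply hx
    simp [h0]
  exact ((integrableOn_iff_integrable_of_support_subset h5).1 h4).integrableOn

lemma lim1 (p : Polynomial ℝ) (hp : 0 < p.eval 0) (s : ℝ) :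
    Tendsto (fun ε : ℝ => p.eval (ε * (1 + s)) / p.eval ε) (𝓝 0) (𝓝 1) := by
  have h1 : ContinuousAt (fun ε : ℝ => p.eval (ε * (1 + s)) / p.eval ε) 0 := by
    refine ContinuousAt.div ?_ ?_ hp.ne'
    · exact (p.continuous.comp (continuous_id.mul continuous_const)).continuousAt
    · exact p.continuous.continuousAt
  have h2 : p.eval ((0 : ℝ) * (1 + s)) / p.eval 0 = 1 := by
    rw [zero_mul, div_self hp.ne']
  have h3 := h1.tendsto
  beta_reduce at h3
  rw [h2] at h3
  exact h3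

lemma lim2 (k : ℕ) : Tendsto (fun t : ℝ => ((1 + t) ^ k - 1) / t) (𝓝[>] 0) (𝓝 (k : ℝ)) := by
  have h1 : HasDerivAt (fun t : ℝ => (1 + t) ^ k) (k : ℝ) 0 := by
    have h2 : HasDerivAt (fun t : ℝ => 1 + t) 1 0 := (hasDerivAt_id (0 : ℝ)).const_add 1
    have h3 : HasDerivAt (fun t : ℝ => (1 + t) ^ k) ((k : ℝ) * (1 + 0) ^ (k - 1) * 1) 0 := h2.pow k
    have h5 : (k : ℝ) * (1 + 0) ^ (k - 1) * 1 = k := by simp
    rw [h5] at h3
    exact h3
  have h4 := h1.tendsto_slope_zero_right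
  refine h4.congr fun t => ?_
  simp only [zero_add, add_zero, one_pow, smul_eq_mul]
  rw [div_eq_inv_mul]

lemma det_mul_re {A Q : Matrix (Fin n) (Fin n) ℂ} (hQ : Q.det.im = 0) :
    (A * Q).det.re = A.det.re * Q.det.re := by
  rw [Matrix.det_mul, Complex.mul_re, hQ, mul_zero, sub_zero]

lemma Bep_mul {H Q : Cn n → Matrix (Fin n) (Fin n) ℂ} {x : Cn n} (hQ : (Q x)⁻¹ * Q x = 1)
    (ε s : ℝ) : (1 + (s : ℂ) • Bep ε H Q x) * Q x = Q x + ((s * ε : ℝ) : ℂ) • H x := by
  unfold Bep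
  rw [add_mul, one_mul, smul_smul, Matrix.smul_mul, Matrix.mul_assoc, hQ, Matrix.mul_one]
  push_cast
  rfl

lemma det_cont {A : Cn n → Matrix (Fin n) (Fin n) ℂ} {T : Set (Cn n)}
    (h : ∀ i j, ContinuousOn (fun x => A x i j) T) : ContinuousOn (fun x => (A x).det.re) T := by
  refine Complex.continuous_re.comp_continuousOn ?_
  simp only [Matrix.det_apply']
  exact continuousOn_finsetSum _ fun σ _ => continuousOn_const.mul
    (continuousOn_finsetProd _ fun i _ => h _ _)

end Gtr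

open Gtr in
theorem gtr (h1 : S_DETI.{u}) (h2 : S_VOLP.{u}) (h3 : Pool.Agent.Helper95.HS.S_TRC) :
    S_GTR.{u} := by
  intro n T G _ R H hH κ hκ hex k p hp hV Λ hΛ η hη s hs
  have hvol := (h2 T R H hH κ hκ hex).1
  have hTm : MeasurableSet T := hH.et.isOpen.measurableSet
  -- the parameter t
  obtain ⟨t, ht0, ht1, ht2, ht3⟩ : ∃ t : ℝ, 0 < t ∧ |((1 + t) ^ k - 1) / t - k| < η / 4 ∧
      t * Λ ^ 2 < η / 4 ∧ t * Λ ≤ 1 := by
    have e1 : ∀ᶠ t : ℝ in 𝓝[>] 0, |((1 + t) ^ k - 1) / t - k| < η / 4 := by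
      have := (lim2 k).eventually (Metric.ball_mem_nhds (k : ℝ) (by linarith : 0 < η / 4))
      filter_upwards [this] with t ht
      rwa [Real.dist_eq] at ht
    have c1 : Tendsto (fun t : ℝ => t * Λ ^ 2) (𝓝[>] 0) (𝓝 0) := by
      have : Tendsto (fun t : ℝ => t * Λ ^ 2) (𝓝 0) (𝓝 (0 * Λ ^ 2)) :=
        (continuous_id.mul continuous_const).tendsto 0
      rw [zero_mul] at this
      exact this.mono_left nhdsWithin_le_nhds
    have c2 : Tendsto (fun t : ℝ => t * Λ) (𝓝[>] 0) (𝓝 0) := by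
      have : Tendsto (fun t : ℝ => t * Λ) (𝓝 0) (𝓝 (0 * Λ)) :=
        (continuous_id.mul continuous_const).tendsto 0
      rw [zero_mul] at this
      exact this.mono_left nhdsWithin_le_nhds
    have e2 := c1.eventually (gt_mem_nhds (by linarith : (0 : ℝ) < η / 4))
    have e3 := c2.eventually (gt_mem_nhds (zero_lt_one : (0 : ℝ) < 1))
    obtain ⟨t, ⟨⟨ht1, ht2⟩, ht3⟩, ht4⟩ :=
      (((e1.and e2).and e3).and self_mem_nhdsWithin).exists
    exact ⟨t, ht4, ht1, ht2, ht3.le⟩
  -- the parameter ε₀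
  obtain ⟨ε₀, hε₀, hE⟩ : ∃ ε₀ : ℝ, 0 < ε₀ ∧ ∀ ε : ℝ, 0 < ε → ε ≤ ε₀ → 0 < p.eval ε ∧
      |(1 + t) ^ k * (p.eval (ε * (1 + t)) / p.eval ε) - (1 + t) ^ k| < t * (η / 4) ∧
      (1 + s) ^ k * (p.eval (ε * (1 + s)) / p.eval ε) < (1 + s) ^ k + η := by
    have e1 : ∀ᶠ ε : ℝ in 𝓝 0, 0 < p.eval ε := p.continuous.continuousAt.eventually (lt_mem_nhds hp)
    have e2 : ∀ᶠ ε : ℝ in 𝓝 0,
        |(1 + t) ^ k * (p.eval (ε * (1 + t)) / p.eval ε) - (1 + t) ^ k| < t * (η / 4) := by
      have c := (lim1 p hp t).const_mul ((1 + t) ^ k)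
      rw [mul_one] at c
      have := c.eventually (Metric.ball_mem_nhds _ (by positivity : 0 < t * (η / 4)))
      filter_upwards [this] with ε hε
      rwa [Real.dist_eq] at hε
    have e3 : ∀ᶠ ε : ℝ in 𝓝 0,
        (1 + s) ^ k * (p.eval (ε * (1 + s)) / p.eval ε) < (1 + s) ^ k + η := by
      have c := (lim1 p hp s).const_mul ((1 + s) ^ k)
      rw [mul_one] at c
      exact c.eventually (gt_mem_nhds (by linarith))
    obtain ⟨δ, hδ, hball⟩ := Metric.eventually_nhds_iff.1 ((e1.and e2).and e3)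
    refine ⟨δ / 2, by linarith, fun ε hε hε' => ?_⟩
    have hd : dist ε 0 < δ := by
      rw [Real.dist_eq, sub_zero, abs_of_pos hε]
      linarith
    obtain ⟨⟨g1, g2⟩, g3⟩ := hball hd
    exact ⟨g1, g2, g3⟩
  refine ⟨ε₀, hε₀, fun ε Q hε hεε hQ => ?_⟩
  obtain ⟨hp1, hp2, hp3⟩ := hE ε hε hεε
  obtain ⟨dQ, -, dI, -⟩ := h1 T R Q hQ.ket
  have hQc : ∀ i j, ContinuousOn (fun x => Q x i j) T := fun i j => (hQ.ket.smooth i j).continuousOn
  have hHc : ∀ i j, ContinuousOn (fun x => H x i j) T := fun i j => (hH.smooth i j).continuousOn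
  have hIc : ∀ i j, ContinuousOn (fun x => (Q x)⁻¹ i j) T := fun i j => (dI i j).continuousOn
  have hinv : ∀ x ∈ T, (Q x)⁻¹ * Q x = 1 := fun x hx => mul_eq_one_comm.1 (dQ x hx).2.2.2
  have hBc : ∀ i j, ContinuousOn (fun x => Bep ε H Q x i j) T := by
    intro i j
    simp only [Bep, Matrix.smul_apply, smul_eq_mul, Matrix.mul_apply]
    exact continuousOn_const.mul (continuousOn_finsetSum _ fun l _ => (hHc i l).mul (hIc l j))
  have htrc : ContinuousOn (fun x => (Matrix.trace (Bep ε H Q x)).re) T := by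
    refine Complex.continuous_re.comp_continuousOn ?_
    simp only [Matrix.trace, Matrix.diag_apply]
    exact continuousOn_finsetSum _ fun i _ => hBc i i
  have hdQc := det_cont hQc
  have hSc : ∀ r : ℝ, ContinuousOn (fun x => (Q x + ((r : ℝ) : ℂ) • H x).det.re) T := by
    intro r
    refine det_cont fun i j => ?_
    simp only [Matrix.add_apply, Matrix.smul_apply, smul_eq_mul]
    exact (hQc i j).add (continuousOn_const.mul (hHc i j))
  -- the values of `itg`
  have hI1 : itg T κ Q (fun _ => 1) = ε ^ k * p.eval ε := by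
    have h4 := hvol ε Q hε hQ 0 le_rfl
    rw [add_zero, hV] at h4
    rw [← h4]
    unfold itg
    simp
  have hIs : ∀ r : ℝ, 0 ≤ r → itg T κ Q (fun x => (1 + (r : ℂ) • Bep ε H Q x).det.re) =
      (ε * (1 + r)) ^ k * p.eval (ε * (1 + r)) := by
    intro r hr
    have h4 := hvol ε Q hε hQ (r * ε) (by positivity)
    rw [show ε + r * ε = ε * (1 + r) by ring, hV] at h4
    rw [← h4]
    unfold itg
    refine setIntegral_congr_fun hTm fun x hx => ?_
    beta_reduce
    rw [← Bep_mul (hinv x hx), det_mul_re (dQ x hx).1]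
    ring
  have hI0 : 0 < itg T κ Q (fun _ => 1) := by
    rw [hI1]
    positivity
  have hAv : ∀ r : ℝ, 0 ≤ r → avE T κ Q (fun x => (1 + (r : ℂ) • Bep ε H Q x).det.re) =
      (1 + r) ^ k * (p.eval (ε * (1 + r)) / p.eval ε) := by
    intro r hr
    unfold avE
    rw [hIs r hr, hI1]
    have : ε ^ k ≠ 0 := by positivity
    rw [mul_pow]
    field_simp
  refine ⟨hI0, ?_, ?_⟩
  · -- the trace
    -- pointwise inequalities
    have hpt : ∀ x ∈ T, 0 ≤ (Matrix.trace (Bep ε H Q x)).re ∧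
        (Q x).det.re * (1 + t * (Matrix.trace (Bep ε H Q x)).re) ≤
          (Q x + ((t * ε : ℝ) : ℂ) • H x).det.re ∧
        (Q x + ((t * ε : ℝ) : ℂ) • H x).det.re ≤
          (Q x).det.re * (1 + t * (Matrix.trace (Bep ε H Q x)).re + t ^ 2 * Λ ^ 2) := by
      intro x hx
      have hps : ((ε : ℂ) • H x).PosSemidef :=
        (hH.posDef x hx).posSemidef.smul (by exact_mod_cast hε.le)
      obtain ⟨-, g2, -, -, g5⟩ := h3 (Q x) ((ε : ℂ) • H x) (hQ.ket.posDef x hx)
      have htr : Matrix.trace ((Q x)⁻¹ * ((ε : ℂ) • H x)) = Matrix.trace (Bep ε H Q x) := by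
        unfold Bep
        rw [Matrix.mul_smul, Matrix.trace_smul, Matrix.trace_smul, Matrix.trace_mul_comm]
      have htH : (t : ℂ) • ((ε : ℂ) • H x) = ((t * ε : ℝ) : ℂ) • H x := by
        rw [smul_smul]
        push_cast
        rfl
      obtain ⟨g6, g7⟩ := g5 t ht0.le hps
      rw [htr, htH] at g6 g7
      have g8 := (g2 hps).1
      rw [htr] at g8
      have g9 := hΛ ε Q hε hQ x hx
      have g10 : t * (Matrix.trace (Bep ε H Q x)).re ≤ 1 :=
        (mul_le_mul_of_nonneg_left g9 ht0.le).trans ht3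
      refine ⟨g8, g6, (g7 g10).trans ?_⟩
      have g11 : (Matrix.trace (Bep ε H Q x)).re ^ 2 ≤ Λ ^ 2 := by gcongr
      have g12 := (dQ x hx).2.1
      have g13 : (t * (Matrix.trace (Bep ε H Q x)).re) ^ 2 ≤ t ^ 2 * Λ ^ 2 := by
        rw [mul_pow]
        exact mul_le_mul_of_nonneg_left g11 (sq_nonneg t)
      exact mul_le_mul_of_nonneg_left (by linarith) g12.le
    -- integrability
    have j1 : IntegrableOn (fun x => κ x * (Q x).det.re) T := kint hκ.test hdQc
    have j2 : IntegrableOn (fun x => κ x * (Q x).det.re * (Matrix.trace (Bep ε H Q x)).re) T := by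
      have : IntegrableOn (fun x => κ x * ((Q x).det.re * (Matrix.trace (Bep ε H Q x)).re)) T :=
        kint hκ.test (hdQc.mul htrc)
      simpa only [mul_assoc] using this
    have j4 : IntegrableOn (fun x => κ x * (Q x).det.re +
        t * (κ x * (Q x).det.re * (Matrix.trace (Bep ε H Q x)).re)) T := j1.add (j2.const_mul t)
    have j3 : IntegrableOn (fun x => κ x * (Q x + ((t * ε : ℝ) : ℂ) • H x).det.re) T :=
      kint hκ.test (hSc (t * ε))
    have hVt : ∫ x in T, κ x * (Q x + ((t * ε : ℝ) : ℂ) • H x).det.re =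
        (ε * (1 + t)) ^ k * p.eval (ε * (1 + t)) := by
      have h4 := hvol ε Q hε hQ (t * ε) (by positivity)
      rwa [show ε + t * ε = ε * (1 + t) by ring, hV] at h4
    have hI1' : ∫ x in T, κ x * (Q x).det.re = ε ^ k * p.eval ε := by
      rw [← hI1]
      unfold itg
      simp
    obtain ⟨I, hI⟩ : ∃ I : ℝ, I = ∫ x in T, κ x * (Q x).det.re * (Matrix.trace (Bep ε H Q x)).re :=
      ⟨_, rfl⟩
    have low : ε ^ k * p.eval ε + t * I ≤ (ε * (1 + t)) ^ k * p.eval (ε * (1 + t)) := by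
      rw [← hVt, ← hI1', hI, ← integral_const_mul, ← integral_add j1 (j2.const_mul t)]
      refine setIntegral_mono_on (j1.add (j2.const_mul t)) j3 hTm fun x hx => ?_
      have g := mul_le_mul_of_nonneg_left (hpt x hx).2.1 (hκ.nonneg x)
      have e : κ x * (Q x).det.re + t * (κ x * (Q x).det.re * (Matrix.trace (Bep ε H Q x)).re) =
        κ x * ((Q x).det.re * (1 + t * (Matrix.trace (Bep ε H Q x)).re)) := by ring
      exact e.le.trans g
    have up : (ε * (1 + t)) ^ k * p.eval (ε * (1 + t)) ≤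
        ε ^ k * p.eval ε + t * I + t ^ 2 * Λ ^ 2 * (ε ^ k * p.eval ε) := by
      rw [← hVt, ← hI1', hI, ← integral_const_mul, ← integral_const_mul,
        ← integral_add j1 (j2.const_mul t),
        ← integral_add j4 (j1.const_mul (t ^ 2 * Λ ^ 2))]
      refine setIntegral_mono_on j3
        (j4.add (j1.const_mul (t ^ 2 * Λ ^ 2))) hTm fun x hx => ?_
      have g := mul_le_mul_of_nonneg_left (hpt x hx).2.2 (hκ.nonneg x)
      have e : κ x * ((Q x).det.re * (1 + t * (Matrix.trace (Bep ε H Q x)).re + t ^ 2 * Λ ^ 2)) =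
        κ x * (Q x).det.re + t * (κ x * (Q x).det.re * (Matrix.trace (Bep ε H Q x)).re) +
          t ^ 2 * Λ ^ 2 * (κ x * (Q x).det.re) := by ring
      exact g.trans e.le
    -- division
    have hVpos : 0 < ε ^ k * p.eval ε := by positivity
    have hav : avE T κ Q (fun x => (Matrix.trace (Bep ε H Q x)).re) = I / (ε ^ k * p.eval ε) := by
      unfold avE
      rw [hI1, hI]
      rfl
    obtain ⟨E, hE'⟩ : ∃ E : ℝ, E = I / (ε ^ k * p.eval ε) := ⟨_, rfl⟩
    have hIE : I = E * (ε ^ k * p.eval ε) := by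
      rw [hE']
      field_simp
    obtain ⟨a, ha⟩ : ∃ a : ℝ, a = (1 + t) ^ k * (p.eval (ε * (1 + t)) / p.eval ε) := ⟨_, rfl⟩
    have hVa : (ε * (1 + t)) ^ k * p.eval (ε * (1 + t)) = a * (ε ^ k * p.eval ε) := by
      rw [ha, mul_pow]
      field_simp
    rw [hVa, hIE] at low up
    rw [← ha] at hp2
    rw [hav, ← hE']
    have low' : 1 + t * E ≤ a := by
      refine le_of_mul_le_mul_right ?_ hVpos
      linarith
    have up' : a ≤ 1 + t * E + t ^ 2 * Λ ^ 2 := by
      refine le_of_mul_le_mul_right ?_ hVpos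
      linarith
    obtain ⟨c, hc⟩ : ∃ c : ℝ, c = ((1 + t) ^ k - 1) / t := ⟨_, rfl⟩
    rw [← hc] at ht1
    have hct : (1 + t) ^ k = 1 + t * c := by
      rw [hc]
      field_simp
      ring
    rw [hct, abs_lt] at hp2
    rw [abs_lt] at ht1
    rw [abs_le]
    have q1 : t * E ≤ t * (c + η / 4) := by linarith
    have q2 : t * (c - η / 4) ≤ t * (E + t * Λ ^ 2) := by
      have : t * (E + t * Λ ^ 2) = t * E + t ^ 2 * Λ ^ 2 := by ring
      rw [this]
      linarith
    have q3 := le_of_mul_le_mul_left q1 ht0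
    have q4 := le_of_mul_le_mul_left q2 ht0
    constructor <;> linarith
  · rw [hAv s hs]
    exact hp3.le

end Pool.Agent.Helper58.GS
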